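import Pool.Agent.helper11.VD.Spec3e

/-!
# Project VD (MP_07c750_an), row VLD: the volume of the window, uniform in the class of metrics
-/

set_option autoImplicit false

open scoped ContDiff Topology InnerProductSpace ENNReal ComplexConjugate
open MeasureTheory Filter Set

namespace Pool.Agent.VD

theorem VLD_proof (hGNR : GNR_stmt) (hGXH : GXH_stmt) : VLD_stmt := by
  intro d Γ _ _ K k B r0
  obtain ⟨C0, hC0, h0⟩ := hGNR d B ⌈r0⌉₊
  have hfin : volume (Metric.closedBall (0 : V d) r0 ×ˢ Metric.closedBall (0 : V d) (C0 * 3)) < ⊤ :=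
    ((isCompact_closedBall (0 : V d) r0).prod (isCompact_closedBall (0 : V d) (C0 * 3))).measure_lt_top
  refine ⟨max 1 (volume (Metric.closedBall (0 : V d) r0 ×ˢ Metric.closedBall (0 : V d) (C0 * 3))).toReal, le_max_left _ _,
    fun G R hR hG => ?_⟩
  refine le_trans (measure_mono (t := Metric.closedBall (0 : V d) r0 ×ˢ Metric.closedBall (0 : V d) (C0 * 3)) ?_) ?_
  · rintro p ⟨hp1, hp2⟩
    have h1 : R ^ (-(1 / 4) : ℝ) ≤ 1 := Real.rpow_le_one_of_one_le_of_nonpos hR (by norm_num)
    have h2 : Ep G p ≤ 2 := by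
      have := (abs_le.1 hp2).2
      linarith
    have h3 : nrm G p ^ 2 = 2 * Ham G p := (hGXH d G hG.met).2.2.2.1 p
    have h4 : nrm G p ≤ 3 := by
      have h5 : Ham G p ≤ 5 / 2 := by
        unfold Ep at h2
        linarith
      nlinarith
    have h5 := (h0 G hG.met hG.lo hG.bd p (hp1.trans (Nat.le_ceil r0))).1
    refine ⟨by simpa using hp1, ?_⟩
    rw [mem_closedBall_zero_iff]
    exact h5.trans (mul_le_mul_of_nonneg_left h4 (by linarith))
  · exact (ENNReal.ofReal_toReal hfin.ne).symm.le.trans (ENNReal.ofReal_le_ofReal (le_max_right _ _))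

end Pool.Agent.VD
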